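import Pool.Agent.Helper7.HU.Cong
import Pool.Agent.AAP.Teich
import Pool.Agent.Helper42.Asum.Hadamard

/-!
# HU-Main: for every prime `p ≥ 5` more than half of the even `n` in `[2, p - 3]` have `p ∤ B_n`
-/

set_option autoImplicit false

namespace Pool.Agent.Helper7.HU

open Finset

section

variable {p : ℕ} [hp : Fact p.Prime]

private theorem tei_inj (t : (ZMod p)ˣ →* ℚ_[p]ˣ)
    (ht : ∀ u, ‖(t u : ℚ_[p]) - (((u : ZMod p).val : ℕ) : ℚ_[p])‖ < 1) :
    Function.Injective t := by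
  intro u v h
  have h1 : ‖(((((u : ZMod p).val : ℕ) : ℤ) - (((v : ZMod p).val : ℕ) : ℤ) : ℤ) : ℚ_[p])‖ < 1 := by
    have h2 : (((((u : ZMod p).val : ℕ) : ℤ) - (((v : ZMod p).val : ℕ) : ℤ) : ℤ) : ℚ_[p]) =
        ((t v : ℚ_[p]) - (((v : ZMod p).val : ℕ) : ℚ_[p])) +
        -((t u : ℚ_[p]) - (((u : ZMod p).val : ℕ) : ℚ_[p])) := by
      rw [h]
      push_cast
      ring
    rw [h2]
    refine (IsUltrametricDist.norm_add_le_max _ _).trans_lt (max_lt (ht v) ?_)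
    rw [norm_neg]
    exact ht u
  rw [Padic.norm_intCast_lt_one_iff] at h1
  have h2 : ((((((u : ZMod p).val : ℕ) : ℤ) - (((v : ZMod p).val : ℕ) : ℤ) : ℤ)) : ZMod p) = 0 :=
    (ZMod.intCast_zmod_eq_zero_iff_dvd _ _).2 h1
  push_cast at h2
  rw [ZMod.natCast_zmod_val, ZMod.natCast_zmod_val, sub_eq_zero] at h2
  exact Units.ext h2

private theorem tei_norm (t : (ZMod p)ˣ →* ℚ_[p]ˣ) (u : (ZMod p)ˣ) : ‖(t u : ℚ_[p])‖ = 1 := by
  have h1 : (t u) ^ (p - 1) = 1 := by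
    rw [← map_pow, ZMod.units_pow_card_sub_one_eq_one, map_one]
  have h2 : ‖(t u : ℚ_[p])‖ ^ (p - 1) = 1 := by
    rw [← norm_pow, ← Units.val_pow_eq_pow_val, h1, Units.val_one, norm_one]
  exact (pow_eq_one_iff_of_nonneg (norm_nonneg _) (by have := hp.out.two_le; omega)).1 h2

private theorem pow_close {x y : ℚ_[p]} (hx : ‖x‖ ≤ 1) (hy : ‖y‖ ≤ 1) (h : ‖x - y‖ < 1) (j : ℕ) :
    ‖x ^ j - y ^ j‖ < 1 := by
  induction j with
  | zero => simp
  | succ j ih =>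
    have h1 : x ^ (j + 1) - y ^ (j + 1) = x ^ j * (x - y) + (x ^ j - y ^ j) * y := by ring
    rw [h1]
    refine (IsUltrametricDist.norm_add_le_max _ _).trans_lt (max_lt ?_ ?_)
    · rw [norm_mul, norm_pow]
      exact (mul_le_of_le_one_left (norm_nonneg _) (pow_le_one₀ (norm_nonneg _) hx)).trans_lt h
    · rw [norm_mul]
      exact (mul_le_of_le_one_right (norm_nonneg _) hy).trans_lt ih

/-- the factor of an irregular index -/
private theorem factor_lt (hp2 : p ≠ 2) (t : (ZMod p)ˣ →* ℚ_[p]ˣ)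
    (ht : ∀ u, ‖(t u : ℚ_[p]) - (((u : ZMod p).val : ℕ) : ℚ_[p])‖ < 1) {n : ℕ} (hn : 2 ≤ n)
    (hnp : n + 3 ≤ p) (he : Even n) (hB : ‖((_root_.bernoulli n : ℚ) : ℚ_[p])‖ < 1) :
    ‖∑ c ∈ H p, ((((t c) ^ (p - n))⁻¹ : ℚ_[p]ˣ) : ℚ_[p])‖ < 1 := by
  have h1 : ∀ c : (ZMod p)ˣ, ((((t c) ^ (p - n))⁻¹ : ℚ_[p]ˣ) : ℚ_[p]) = (t c : ℚ_[p]) ^ (n - 1) := by
    intro c
    have h2 : (t c) ^ (p - n) * (t c) ^ (n - 1) = 1 := by
      rw [← pow_add, show p - n + (n - 1) = p - 1 by omega, ← map_pow,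
        ZMod.units_pow_card_sub_one_eq_one, map_one]
    rw [inv_eq_of_mul_eq_one_right h2, Units.val_pow_eq_pow_val]
  rw [sum_congr rfl fun c _ => h1 c]
  have h3 : ∑ c ∈ H p, (t c : ℚ_[p]) ^ (n - 1) =
      ∑ c ∈ H p, ((t c : ℚ_[p]) ^ (n - 1) - (((c : ZMod p).val : ℕ) : ℚ_[p]) ^ (n - 1)) +
        ((∑ c ∈ H p, (((c : ZMod p).val : ℕ) : ℤ) ^ (n - 1) : ℤ) : ℚ_[p]) := by
    rw [sum_sub_distrib]
    push_cast
    ring
  rw [h3]
  refine (IsUltrametricDist.norm_add_le_max _ _).trans_lt (max_lt ?_ ?_)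
  · refine Finset.sum_induction _ (fun x : ℚ_[p] => ‖x‖ < 1)
      (fun x y hx hy => (IsUltrametricDist.norm_add_le_max _ _).trans_lt (max_lt hx hy))
      (by simp) fun c _ => ?_
    exact pow_close (tei_norm t c).le (by exact_mod_cast Padic.norm_int_le_one _) (ht c) _
  · rw [Padic.norm_intCast_lt_one_iff]
    exact dvd_half hp2 hn (by omega) he hB

/-- the even `n` in `[2, p - 3]` with `p ∣ B_n` -/
noncomputable def bad (p : ℕ) [Fact p.Prime] : Finset ℕ := by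
  classical
  exact (range p).filter fun n => Even n ∧ 2 ≤ n ∧ n + 3 ≤ p ∧
    ‖((_root_.bernoulli n : ℚ) : ℚ_[p])‖ < 1

theorem mem_bad {n : ℕ} : n ∈ bad p ↔ Even n ∧ 2 ≤ n ∧ n + 3 ≤ p ∧
    ‖((_root_.bernoulli n : ℚ) : ℚ_[p])‖ < 1 := by
  classical
  rw [bad, mem_filter, mem_range]
  constructor
  · exact fun h => h.2
  · exact fun h => ⟨by omega, h⟩

private theorem pow_dvd_det (hp2 : p ≠ 2) : ((p ^ (bad p).card : ℕ) : ℤ) ∣ (M p).det := by
  classical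
  obtain ⟨t, ht⟩ := Pool.Agent.AAP.teich p ℚ_[p]
  have hinj := tei_inj t ht
  have hdet := det_M (F := ℚ_[p]) hp2 two_ne_zero t hinj
  have hpp : (0 : ℝ) < (p : ℝ)⁻¹ := inv_pos.2 (by exact_mod_cast hp.out.pos)
  have hodd : p % 2 = 1 := (hp.out.eq_two_or_odd).resolve_left hp2
  set D : ℕ → ℚ_[p] := fun k => ∑ c ∈ H p, ((((t c) ^ (2 * k + 1))⁻¹ : ℚ_[p]ˣ) : ℚ_[p]) with hD
  have hD1 : ∀ k, ‖D k‖ ≤ 1 := by
    intro k
    refine IsUltrametricDist.norm_sum_le_of_forall_le_of_nonneg zero_le_one fun c _ => ?_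
    rw [← map_pow, ← map_inv, tei_norm t]
  have hD2 : ∀ n ∈ bad p, ‖D ((p - n - 1) / 2)‖ ≤ (p : ℝ)⁻¹ := by
    intro n hn
    rw [mem_bad] at hn
    obtain ⟨he, hn2, hn3, hB⟩ := hn
    have h1 := factor_lt hp2 t ht hn2 hn3 he hB
    have h2 : 2 * ((p - n - 1) / 2) + 1 = p - n := by
      obtain ⟨r, hr⟩ := he
      omega
    have h3 : ‖D ((p - n - 1) / 2)‖ < 1 := by
      rw [hD]
      simp only [h2]
      exact h1
    have h4 := (Padic.norm_le_pow_iff_norm_lt_pow_add_one (D ((p - n - 1) / 2)) (-1)).2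
      (by simpa using h3)
    simpa using h4
  have hinj2 : Set.InjOn (fun n => (p - n - 1) / 2) (bad p : Set ℕ) := by
    intro n hn n' hn' h
    rw [mem_coe, mem_bad] at hn hn'
    obtain ⟨⟨r, hr⟩, hn2, hn3, -⟩ := hn
    obtain ⟨⟨r', hr'⟩, hn2', hn3', -⟩ := hn'
    simp only at h
    omega
  have h1 : ‖(((M p).det : ℤ) : ℚ_[p])‖ ≤ (p : ℝ) ^ (-((bad p).card : ℕ) : ℤ) := by
    rw [hdet, norm_prod]
    have h2 : ∀ k ∈ range ((p - 1) / 2), ‖D k‖ ≤
        if k ∈ (bad p).image (fun n => (p - n - 1) / 2) then (p : ℝ)⁻¹ else 1 := by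
      intro k _
      split_ifs with hk
      · obtain ⟨n, hn, rfl⟩ := mem_image.1 hk
        exact hD2 n hn
      · exact hD1 k
    refine (prod_le_prod (fun k _ => norm_nonneg _) h2).trans ?_
    have h3 : (bad p).image (fun n => (p - n - 1) / 2) ⊆ range ((p - 1) / 2) := by
      intro k hk
      obtain ⟨n, hn, rfl⟩ := mem_image.1 hk
      rw [mem_bad] at hn
      rw [mem_range]
      omega
    rw [prod_ite_mem, inter_eq_right.2 h3, prod_const, card_image_of_injOn hinj2, zpow_neg,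
      zpow_natCast, inv_pow]
  rw [Padic.norm_int_le_pow_iff_dvd] at h1
  exact_mod_cast h1

/-- the precise inequality -/
theorem bad_ineq (hp5 : 5 ≤ p) :
    p ^ (2 * (bad p).card) * 4 ^ ((p - 1) / 2 - 2) ≤ ((p - 1) / 2) ^ ((p - 1) / 2) := by
  classical
  have hp2 : p ≠ 2 := by omega
  have hcard : Fintype.card (H p) = (p - 1) / 2 := by
    rw [Fintype.card_coe, card_H p hp2]
  have h1 := pow_dvd_det (p := p) hp2
  have hodd : ∀ i j, Odd (M p i j) := by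
    intro i j
    rw [M, Matrix.of_apply, sg]
    split_ifs
    · exact odd_one
    · exact odd_neg.2 odd_one
  have hne : Nonempty (H p) := by
    rw [← Fintype.card_pos_iff, hcard]
    omega
  obtain ⟨y⟩ := hne
  have h2 := Pool.Agent.Helper42.Asum.dvd_det_of_odd (M p) y (fun i _ j => hodd i j)
  rw [hcard] at h2
  have h3 : IsCoprime ((p ^ (bad p).card : ℕ) : ℤ) ((2 : ℤ) ^ ((p - 1) / 2 - 2)) := by
    push_cast
    refine IsCoprime.pow ?_
    have h4 : Nat.Coprime p 2 := (Nat.coprime_primes hp.out Nat.prime_two).2 hp2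
    exact_mod_cast Nat.isCoprime_iff_coprime.2 h4
  have h4 : ((p ^ (bad p).card : ℕ) : ℤ) * (2 : ℤ) ^ ((p - 1) / 2 - 2) ∣ (M p).det :=
    h3.mul_dvd h1 h2
  have h5 := Pool.Agent.Helper42.Asum.hadamard ((M p).map (Int.cast : ℤ → ℝ)) (by
    intro i j
    rw [Matrix.map_apply, M, Matrix.of_apply, sg]
    split_ifs <;> simp)
  have h6 : ((M p).map (Int.cast : ℤ → ℝ)).det = (((M p).det : ℤ) : ℝ) := by
    have := (Int.castRingHom ℝ).map_det (M p)
    rw [eq_intCast] at this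
    rw [this]
    rfl
  rw [h6, hcard] at h5
  have h7 : ((M p).det) ^ 2 ≤ ((((p - 1) / 2 : ℕ)) : ℤ) ^ ((p - 1) / 2) := by
    have h8 : ((((M p).det) ^ 2 : ℤ) : ℝ) ≤ ((((((p - 1) / 2 : ℕ)) : ℤ) ^ ((p - 1) / 2) : ℤ) : ℝ) := by
      push_cast at h5 ⊢
      exact h5
    exact Int.cast_le.1 h8
  have h8 : (((p ^ (bad p).card : ℕ) : ℤ) * (2 : ℤ) ^ ((p - 1) / 2 - 2)) ^ 2 ≤ ((M p).det) ^ 2 := by
    have h9 : 0 < ((M p).det) ^ 2 := by
      have := det_ne (p := p) hp2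
      positivity
    exact Int.le_of_dvd h9 (pow_dvd_pow_of_dvd h4 2)
  have h10 : (((p ^ (bad p).card : ℕ) : ℤ) * (2 : ℤ) ^ ((p - 1) / 2 - 2)) ^ 2 =
      ((p ^ (2 * (bad p).card) * 4 ^ ((p - 1) / 2 - 2) : ℕ) : ℤ) := by
    push_cast
    rw [mul_pow, ← pow_mul, ← pow_mul, mul_comm 2 (bad p).card, mul_comm ((p - 1) / 2 - 2) 2,
      pow_mul (2 : ℤ) 2]
    norm_num
  rw [h10] at h8
  exact_mod_cast h8.trans h7

/-- fewer than half of the even `n` in `[2, p - 3]` are irregular indices -/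
theorem bad_lt (hp5 : 5 ≤ p) : 4 * (bad p).card + 5 ≤ p := by
  have hodd : p % 2 = 1 := (hp.out.eq_two_or_odd).resolve_left (by omega)
  have h1 := bad_ineq (p := p) hp5
  obtain ⟨m, hm⟩ : ∃ m, p = 2 * m + 1 := ⟨p / 2, by omega⟩
  have hm' : (p - 1) / 2 = m := by omega
  rw [hm'] at h1
  by_contra hcon
  -- `2 b ≥ m - 1`
  have hb : m - 1 ≤ 2 * (bad p).card := by omega
  have h2 : p ^ (m - 1) * 4 ^ (m - 2) ≤ m ^ m :=
    (Nat.mul_le_mul_right _ (Nat.pow_le_pow_right hp.out.pos hb)).trans h1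
  have h3 : (2 * m) ^ (m - 1) ≤ p ^ (m - 1) := Nat.pow_le_pow_left (by omega) _
  have h4 : (2 * m) ^ (m - 1) * 4 ^ (m - 2) ≤ m ^ m := (Nat.mul_le_mul_right _ h3).trans h2
  have h5 : m ^ m = m ^ (m - 1) * m := by
    rw [← pow_succ]
    congr 1
    omega
  rw [mul_pow, h5, mul_comm (2 ^ (m - 1)), mul_assoc] at h4
  have h6 : 2 ^ (m - 1) * 4 ^ (m - 2) ≤ m :=
    Nat.le_of_mul_le_mul_left h4 (pow_pos (by omega) _)
  rcases Nat.lt_or_ge m 3 with h7 | h7
  · -- `m = 2`, `p = 5`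
    have h8 : m = 2 := by omega
    subst h8
    have h9 : p = 5 := by omega
    subst h9
    have h10 : 0 < (bad 5).card := by omega
    have h11 : 5 ^ 2 ≤ 5 ^ (2 * (bad 5).card) * 4 ^ (2 - 2) := by
      simpa using Nat.pow_le_pow_right (n := 5) (by norm_num) (show 2 ≤ 2 * (bad 5).card by omega)
    have := h11.trans h1
    omega
  · have h8 : m < 2 ^ m := Nat.lt_two_pow_self
    have h9 : 2 ^ m ≤ 2 ^ (m - 1) * 4 ^ (m - 2) := by
      have h10 : 2 ^ m = 2 ^ (m - 1) * 2 := by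
        rw [← pow_succ]
        congr 1
        omega
      rw [h10]
      refine Nat.mul_le_mul_left _ ?_
      calc 2 ≤ 4 ^ 1 := by norm_num
        _ ≤ 4 ^ (m - 2) := Nat.pow_le_pow_right (by norm_num) (by omega)
    omega

/-- the even `n` in `[2, p - 3]` with `B_n` a `p`-adic unit -/
noncomputable def good (p : ℕ) [Fact p.Prime] : Finset ℕ := by
  classical
  exact (range p).filter fun n => Even n ∧ 2 ≤ n ∧ n + 3 ≤ p ∧
    ‖((_root_.bernoulli n : ℚ) : ℚ_[p])‖ = 1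

theorem mem_good {n : ℕ} : n ∈ good p ↔ Even n ∧ 2 ≤ n ∧ n + 3 ≤ p ∧
    ‖((_root_.bernoulli n : ℚ) : ℚ_[p])‖ = 1 := by
  classical
  rw [good, mem_filter, mem_range]
  constructor
  · exact fun h => h.2
  · exact fun h => ⟨by omega, h⟩

theorem good_add_bad (hp5 : 5 ≤ p) : (good p).card + (bad p).card = (p - 3) / 2 := by
  classical
  have h1 : Disjoint (good p) (bad p) := by
    rw [disjoint_left]
    intro n h1 h2
    rw [mem_good] at h1
    rw [mem_bad] at h2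
    exact absurd h1.2.2.2 h2.2.2.2.ne
  rw [← card_union_of_disjoint h1]
  have h2 : good p ∪ bad p = (range ((p - 3) / 2)).image (fun k => 2 * k + 2) := by
    ext n
    rw [mem_union, mem_good, mem_bad, mem_image]
    constructor
    · intro h
      have h3 : Even n ∧ 2 ≤ n ∧ n + 3 ≤ p := by tauto
      obtain ⟨⟨r, hr⟩, h4, h5⟩ := h3
      exact ⟨r - 1, by rw [mem_range]; omega, by omega⟩
    · rintro ⟨k, hk, rfl⟩
      rw [mem_range] at hk
      have h3 : Even (2 * k + 2) := ⟨k + 1, by ring⟩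
      have h4 : ‖((_root_.bernoulli (2 * k + 2) : ℚ) : ℚ_[p])‖ ≤ 1 :=
        (PadicInt.mem_subring_iff p).1 (nb_bern _ (by omega))
      rcases h4.lt_or_eq with h5 | h5
      · exact Or.inr ⟨h3, by omega, by omega, h5⟩
      · exact Or.inl ⟨h3, by omega, by omega, h5⟩
  rw [h2, card_image_of_injective _ (fun a b h => by have h' : 2 * a + 2 = 2 * b + 2 := h; omega), card_range]

/-- **More than half of the even `n` in `[2, p - 3]` are regular**: for every prime `p ≥ 5` the number `g` of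
even `n` with `2 ≤ n ≤ p - 3` and `B_n` a `p`-adic unit satisfies `4 g ≥ p - 1` (there are `(p - 3) / 2` such `n`
altogether), and the number `b = (p - 3) / 2 - g` of the others satisfies
`p ^ (2 b) * 4 ^ ((p - 1) / 2 - 2) ≤ ((p - 1) / 2) ^ ((p - 1) / 2)`. -/
theorem half_units (hp5 : 5 ≤ p) :
    p ≤ 4 * (good p).card + 1 ∧
    p ^ (2 * ((p - 3) / 2 - (good p).card)) * 4 ^ ((p - 1) / 2 - 2) ≤
      ((p - 1) / 2) ^ ((p - 1) / 2) := by
  have hodd : p % 2 = 1 := (hp.out.eq_two_or_odd).resolve_left (by omega)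
  have h1 := good_add_bad (p := p) hp5
  have h2 := bad_lt (p := p) hp5
  refine ⟨by omega, ?_⟩
  have h3 : (p - 3) / 2 - (good p).card = (bad p).card := by omega
  rw [h3]
  exact bad_ineq hp5

end

end Pool.Agent.Helper7.HU
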