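import Pool.Agent.Helper7.HU.NZ

/-!
# HU-Cong: irregular indices and half power sums

If `p ∣ B_n`, `2 ≤ n ≤ p - 3` even, then `p` divides the sum of the `a ^ (n - 1)`, `0 < a < p / 2`.
-/

set_option autoImplicit false

namespace Pool.Agent.Helper7.HU

open Finset

section

variable {p : ℕ} [hp : Fact p.Prime]

private theorem nb_unit {m : ℕ} (h : ¬ p ∣ m) : ‖(m : ℚ_[p])‖ = 1 :=
  Padic.norm_natCast_eq_one_iff.2 ((Nat.Prime.coprime_iff_not_dvd Fact.out).2 h)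

private theorem nb_inv {m : ℕ} (h : ¬ p ∣ m) : ((m : ℚ_[p]))⁻¹ ∈ PadicInt.subring p := by
  rw [PadicInt.mem_subring_iff, norm_inv, nb_unit h, inv_one]

theorem nb_bern : ∀ k : ℕ, k + 1 < p →
    ((_root_.bernoulli k : ℚ) : ℚ_[p]) ∈ PadicInt.subring p := by
  intro k
  induction k using Nat.strong_induction_on with
  | _ k ih =>
    intro hk
    rcases Nat.eq_zero_or_pos k with rfl | hk0
    · rw [_root_.bernoulli_zero, Rat.cast_one]
      exact Subring.one_mem _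
    · have h1 := sum_bernoulli (k + 1)
      rw [Finset.sum_range_succ, if_neg (by omega), Nat.choose_succ_self_right] at h1
      have h2 : ((k + 1 : ℕ) : ℚ_[p]) * ((_root_.bernoulli k : ℚ) : ℚ_[p]) =
          - ∑ i ∈ Finset.range k, (((k + 1).choose i : ℕ) : ℚ_[p]) *
            ((_root_.bernoulli i : ℚ) : ℚ_[p]) := by
        have h3 : ((k + 1 : ℕ) : ℚ) * _root_.bernoulli k =
            - ∑ i ∈ Finset.range k, (((k + 1).choose i : ℕ) : ℚ) * _root_.bernoulli i := by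
          linarith
        have h4 := congrArg (fun x : ℚ => (x : ℚ_[p])) h3
        simp only [Rat.cast_mul, Rat.cast_natCast, Rat.cast_neg, Rat.cast_sum] at h4
        exact h4
      have h3 : ‖((k + 1 : ℕ) : ℚ_[p]) * ((_root_.bernoulli k : ℚ) : ℚ_[p])‖ ≤ 1 := by
        rw [← PadicInt.mem_subring_iff, h2]
        refine Subring.neg_mem _ (Subring.sum_mem _ fun i hi => Subring.mul_mem _ ?_ ?_)
        · exact natCast_mem _ _
        · rw [Finset.mem_range] at hi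
          exact ih i hi (by omega)
      rw [norm_mul, nb_unit (fun h => absurd (Nat.le_of_dvd (by omega) h) (by omega)),
        one_mul] at h3
      exact (PadicInt.mem_subring_iff p).2 h3

/-- power sums modulo `p ^ 2` -/
private theorem nb_pow {i : ℕ} (hi : i + 1 < p) :
    ∃ y ∈ PadicInt.subring p, (∑ j ∈ Finset.range p, (j : ℚ_[p]) ^ i) -
      p * ((_root_.bernoulli i : ℚ) : ℚ_[p]) = (p : ℚ_[p]) ^ 2 * y := by
  refine ⟨∑ k ∈ Finset.range i, ((_root_.bernoulli k : ℚ) : ℚ_[p]) * (((i + 1).choose k : ℕ) : ℚ_[p]) *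
    (p : ℚ_[p]) ^ (i - 1 - k) * ((i + 1 : ℕ) : ℚ_[p])⁻¹, ?_, ?_⟩
  · refine Subring.sum_mem _ fun k hk => ?_
    rw [Finset.mem_range] at hk
    refine Subring.mul_mem _ (Subring.mul_mem _ (Subring.mul_mem _ (nb_bern k (by omega))
      (natCast_mem _ _)) (Subring.pow_mem _ (natCast_mem _ _) _)) (nb_inv ?_)
    exact fun h => absurd (Nat.le_of_dvd (by omega) h) (by omega)
  · have h1 := sum_range_pow p i
    have h2 := congrArg (fun x : ℚ => (x : ℚ_[p])) h1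
    simp only [Rat.cast_mul, Rat.cast_natCast, Rat.cast_sum, Rat.cast_pow, Rat.cast_div,
      Rat.cast_add, Rat.cast_one] at h2
    rw [h2, Finset.sum_range_succ, Nat.choose_succ_self_right, Finset.mul_sum]
    have h3 : ((i : ℚ_[p]) + 1) ≠ 0 := by
      exact_mod_cast (Nat.succ_ne_zero i)
    have h4 : i + 1 - i = 1 := by omega
    rw [h4, pow_one]
    have h5 : ((_root_.bernoulli i : ℚ) : ℚ_[p]) * ((i + 1 : ℕ) : ℚ_[p]) * (p : ℚ_[p]) /
        ((i : ℚ_[p]) + 1) = p * ((_root_.bernoulli i : ℚ) : ℚ_[p]) := by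
      push_cast
      field_simp
    rw [h5, add_sub_cancel_right]
    refine Finset.sum_congr rfl fun k hk => ?_
    rw [Finset.mem_range] at hk
    have h6 : i + 1 - k = 2 + (i - 1 - k) := by omega
    rw [h6, pow_add]
    push_cast
    field_simp

/-- `p ∣ B_n` gives `p ^ 2 ∣ ∑ a ^ n` -/
theorem sq_dvd {n : ℕ} (hn : 1 ≤ n) (hnp : n + 1 < p)
    (hB : ‖((_root_.bernoulli n : ℚ) : ℚ_[p])‖ < 1) :
    ((p ^ 2 : ℕ) : ℤ) ∣ ∑ a : (ZMod p)ˣ, (((a : ZMod p).val : ℕ) : ℤ) ^ n := by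
  obtain ⟨y, hy, h⟩ := nb_pow (p := p) hnp
  have hpn : ‖(p : ℚ_[p])‖ = (p : ℝ)⁻¹ := Padic.norm_p
  have hp0 : (0 : ℝ) < p := by exact_mod_cast hp.out.pos
  have hB' : ‖((_root_.bernoulli n : ℚ) : ℚ_[p])‖ ≤ (p : ℝ)⁻¹ := by
    have h1 := (Padic.norm_le_pow_iff_norm_lt_pow_add_one ((_root_.bernoulli n : ℚ) : ℚ_[p])
      (-1)).2 (by simpa using hB)
    simpa using h1
  have h1 : ‖∑ j ∈ Finset.range p, (j : ℚ_[p]) ^ n‖ ≤ (p : ℝ) ^ (-(2 : ℕ) : ℤ) := by
    have h2 : ∑ j ∈ Finset.range p, (j : ℚ_[p]) ^ n =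
        p * ((_root_.bernoulli n : ℚ) : ℚ_[p]) + (p : ℚ_[p]) ^ 2 * y := by
      rw [← h]
      ring
    have h3 : (p : ℝ) ^ (-(2 : ℕ) : ℤ) = (p : ℝ)⁻¹ * (p : ℝ)⁻¹ := by
      rw [zpow_neg, zpow_natCast, sq, mul_inv]
    rw [h2, h3]
    refine (IsUltrametricDist.norm_add_le_max _ _).trans (max_le ?_ ?_)
    · rw [norm_mul, hpn]
      exact mul_le_mul_of_nonneg_left hB' (by positivity)
    · rw [norm_mul, norm_pow, hpn, sq]
      exact mul_le_of_le_one_right (by positivity) ((PadicInt.mem_subring_iff p).1 hy)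
  have h2 : ((∑ a : (ZMod p)ˣ, (((a : ZMod p).val : ℕ) : ℤ) ^ n : ℤ) : ℚ_[p]) =
      ∑ j ∈ Finset.range p, (j : ℚ_[p]) ^ n := by
    have h3 : ∑ j ∈ Finset.range p, (j : ℚ_[p]) ^ n =
        ∑ r : ZMod p, ((r.val : ℕ) : ℚ_[p]) ^ n := by
      rw [Pool.Agent.Helper52.Fermat.sum_zmod' (D := p) (fun r => ((r.val : ℕ) : ℚ_[p]) ^ n)]
      refine sum_congr rfl fun k hk => ?_
      rw [ZMod.val_natCast_of_lt (mem_range.1 hk)]
    rw [h3]
    push_cast
    refine Fintype.sum_of_injective (fun r : (ZMod p)ˣ => (r : ZMod p)) Units.val_injective _ _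
      ?_ ?_
    · intro r hr
      have hu : r = 0 := by
        by_contra h0
        exact hr ⟨Units.mk0 r h0, rfl⟩
      rw [hu, ZMod.val_zero, Nat.cast_zero, zero_pow (by omega)]
    · intro r
      rfl
  rw [← h2, Padic.norm_int_le_pow_iff_dvd] at h1
  exact_mod_cast h1

/-- `(x - p y)^n` modulo `p ^ 2` -/
private theorem pow_cong (q x : ℤ) (n : ℕ) (hn : Even n) :
    q ^ 2 ∣ (q - x) ^ n - (x ^ n - n * q * x ^ (n - 1)) := by
  have h1 : (q - x) ^ n = (x - q) ^ n := by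
    rw [← neg_sub x q, hn.neg_pow]
  rw [h1]
  have h2 : ∀ m : ℕ, q ^ 2 ∣ (x - q) ^ (m + 1) - (x ^ (m + 1) - (m + 1 : ℕ) * q * x ^ m) := by
    intro m
    induction m with
    | zero => simp
    | succ m ih =>
      obtain ⟨c, hc⟩ := ih
      refine ⟨c * (x - q) + (m + 1 : ℕ) * x ^ m, ?_⟩
      have h3 : (x - q) ^ (m + 1 + 1) = (x - q) ^ (m + 1) * (x - q) := pow_succ _ _
      have h4 : (x - q) ^ (m + 1) = x ^ (m + 1) - (m + 1 : ℕ) * q * x ^ m + q ^ 2 * c := by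
        linear_combination hc
      rw [h3, h4]
      push_cast
      ring
  rcases n with _ | m
  · simp
  · have := h2 m
    simpa using this

/-- the half power sum -/
theorem dvd_half (hp2 : p ≠ 2) {n : ℕ} (hn : 2 ≤ n) (hnp : n + 1 < p) (he : Even n)
    (hB : ‖((_root_.bernoulli n : ℚ) : ℚ_[p])‖ < 1) :
    (p : ℤ) ∣ ∑ a ∈ H p, (((a : ZMod p).val : ℕ) : ℤ) ^ (n - 1) := by
  have hsq := sq_dvd (by omega) hnp hB
  have hle : ∀ a : (ZMod p)ˣ, (a : ZMod p).val ≤ p := fun a => (ZMod.val_lt _).le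
  set P : ℤ := ∑ a : (ZMod p)ˣ, (((a : ZMod p).val : ℕ) : ℤ) ^ n with hP
  set A : ℤ := ∑ a ∈ H p, (((a : ZMod p).val : ℕ) : ℤ) ^ n with hA
  set T : ℤ := ∑ a ∈ H p, (((a : ZMod p).val : ℕ) : ℤ) ^ (n - 1) with hT
  have e1 : ((p ^ 2 : ℕ) : ℤ) ∣ P - (2 * A - n * p * T) := by
    have h1 : P - (2 * A - n * p * T) = ∑ a ∈ H p,
        (((p : ℤ) - (((a : ZMod p).val : ℕ) : ℤ)) ^ n - ((((a : ZMod p).val : ℕ) : ℤ) ^ n -
          n * p * (((a : ZMod p).val : ℕ) : ℤ) ^ (n - 1))) := by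
      rw [hP, sum_units hp2, hA, hT, mul_sum, mul_sum, ← sum_sub_distrib, ← sum_sub_distrib]
      refine sum_congr rfl fun a _ => ?_
      rw [val_neg_unit, Nat.cast_sub (hle a)]
      ring
    rw [h1]
    refine dvd_sum fun a _ => ?_
    have := pow_cong p (((a : ZMod p).val : ℕ) : ℤ) n he
    exact_mod_cast this
  have e2 : ((p ^ 2 : ℕ) : ℤ) ∣ P - (2 ^ (n + 1) * A - n * p * 2 ^ (n - 1) * T) := by
    have h1 : P - (2 ^ (n + 1) * A - n * p * 2 ^ (n - 1) * T) = ∑ a ∈ H p,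
        (((p : ℤ) - (2 * ((a : ZMod p).val : ℕ) : ℤ)) ^ n -
          ((2 * ((a : ZMod p).val : ℕ) : ℤ) ^ n -
          n * p * (2 * ((a : ZMod p).val : ℕ) : ℤ) ^ (n - 1))) := by
      rw [hP, ← Equiv.sum_comp (Equiv.mulLeft (two hp2)), sum_units hp2, hA, hT, mul_sum, mul_sum,
        ← sum_sub_distrib, ← sum_sub_distrib]
      refine sum_congr rfl fun a ha => ?_
      rw [Equiv.coe_mulLeft, val_two_mul hp2 ha, val_two_neg hp2 ha]
      rw [mem_H] at ha
      rw [Nat.cast_sub ha.le]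
      push_cast
      rw [mul_pow, mul_pow, pow_succ]
      ring
    rw [h1]
    refine dvd_sum fun a _ => ?_
    have := pow_cong p (2 * ((a : ZMod p).val : ℕ) : ℤ) n he
    exact_mod_cast this
  -- eliminate `A`
  have e3 : ((p ^ 2 : ℕ) : ℤ) ∣ (p : ℤ) * ((n * 2 ^ (n - 1) : ℕ) * T) := by
    have h1 : (2 : ℤ) ^ n = 2 * 2 ^ (n - 1) := by
      rw [← pow_succ']
      congr 1
      omega
    have h2 : (p : ℤ) * ((n * 2 ^ (n - 1) : ℕ) * T) =
        2 ^ n * (P - (2 * A - n * p * T)) - (P - (2 ^ (n + 1) * A -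
          n * p * 2 ^ (n - 1) * T)) - (2 ^ n - 1) * P := by
      push_cast
      rw [pow_succ, h1]
      ring
    rw [h2]
    exact dvd_sub (dvd_sub (dvd_mul_of_dvd_right e1 _) e2) (dvd_mul_of_dvd_right hsq _)
  have e4 : (p : ℤ) ∣ (n * 2 ^ (n - 1) : ℕ) * T := by
    obtain ⟨c, hc⟩ := e3
    refine ⟨c, ?_⟩
    have hp0 : (p : ℤ) ≠ 0 := by exact_mod_cast hp.out.ne_zero
    refine mul_left_cancel₀ hp0 ?_
    rw [hc]
    push_cast
    ring
  have hprime : Prime (p : ℤ) := Nat.prime_iff_prime_int.1 hp.out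
  rcases hprime.dvd_or_dvd e4 with h | h
  · exfalso
    have h1 : p ∣ n * 2 ^ (n - 1) := by exact_mod_cast h
    rcases hp.out.dvd_mul.1 h1 with h2 | h2
    · have := Nat.le_of_dvd (by omega) h2
      omega
    · have h3 := hp.out.dvd_of_dvd_pow h2
      exact hp2 ((Nat.prime_dvd_prime_iff_eq hp.out Nat.prime_two).1 h3)
  · exact h

end

end Pool.Agent.Helper7.HU
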