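import Mathlib

/-!
# HU-Det: the half system matrix and its determinant

`H p` = the `a : (ZMod p)ˣ` with `2 a < p`, `M p` = the matrix of the signs of `a b⁻¹`. For a faithful
character `φ` of `(ZMod p)ˣ` the determinant is the product of the sums of the odd powers of `φ` over `H p`.
-/

set_option autoImplicit false

namespace Pool.Agent.Helper7.HU

open Finset

variable (p : ℕ) [hp : Fact p.Prime]

/-- the half system -/
def H : Finset (ZMod p)ˣ := univ.filter fun a => 2 * (a : ZMod p).val < p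

/-- the sign -/
def sg (a : (ZMod p)ˣ) : ℤ := if a ∈ H p then 1 else -1

/-- the matrix of signs -/
def M : Matrix (H p) (H p) ℤ := Matrix.of fun a b => sg p ((a : (ZMod p)ˣ) * (b : (ZMod p)ˣ)⁻¹)

theorem mem_H (a : (ZMod p)ˣ) : a ∈ H p ↔ 2 * (a : ZMod p).val < p := by
  simp [H]

theorem val_neg_unit (a : (ZMod p)ˣ) : ((-a : (ZMod p)ˣ) : ZMod p).val = p - (a : ZMod p).val := by
  have h0 : (a : ZMod p) ≠ 0 := a.ne_zero
  have : NeZero (a : ZMod p) := ⟨h0⟩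
  rw [Units.val_neg, ZMod.val_neg_of_ne_zero]

theorem neg_mem_H (hp2 : p ≠ 2) (a : (ZMod p)ˣ) : -a ∈ H p ↔ a ∉ H p := by
  have h1 : (a : ZMod p).val < p := ZMod.val_lt _
  have hodd : p % 2 = 1 := by
    rcases hp.out.eq_two_or_odd with h | h
    · exact absurd h hp2
    · exact h
  rw [mem_H, mem_H, val_neg_unit]
  omega

theorem sg_neg (hp2 : p ≠ 2) (a : (ZMod p)ˣ) : sg p (-a) = -sg p a := by
  unfold sg
  by_cases h : a ∈ H p
  · rw [if_pos h, if_neg (by rw [neg_mem_H p hp2]; exact not_not.2 h)]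
  · rw [if_neg h, if_pos ((neg_mem_H p hp2 a).2 h), neg_neg]

/-- sums of even functions -/
theorem sum_even {F : Type*} [AddCommMonoid F] (hp2 : p ≠ 2) (f : (ZMod p)ˣ → F)
    (hf : ∀ a, f (-a) = f a) : ∑ a, f a = ∑ a ∈ H p, f a + ∑ a ∈ H p, f a := by
  classical
  have h1 : ∑ a, f a = ∑ a ∈ H p, f a + ∑ a ∈ (H p)ᶜ, f a := (sum_add_sum_compl _ _).symm
  rw [h1]
  congr 1
  refine sum_bij (fun a _ => -a) ?_ ?_ ?_ ?_
  · intro a ha
    rw [mem_compl] at ha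
    exact (neg_mem_H p hp2 a).2 ha
  · intro a _ b _ h
    exact neg_injective h
  · intro b hb
    refine ⟨-b, ?_, neg_neg b⟩
    rw [mem_compl, neg_mem_H p hp2]
    exact not_not.2 hb
  · intro a _
    exact (hf a).symm

theorem card_H (hp2 : p ≠ 2) : (H p).card = (p - 1) / 2 := by
  have h1 := sum_even p hp2 (fun _ => (1 : ℕ)) (fun _ => rfl)
  rw [sum_const, sum_const, smul_eq_mul, mul_one, smul_eq_mul, mul_one, card_univ,
    ZMod.card_units_eq_totient, Nat.totient_prime hp.out] at h1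
  omega

section

variable {p} {F : Type*} [Field F]

/-- values at `-1` -/
theorem chi_neg_one (hp2 : p ≠ 2) (φ : (ZMod p)ˣ →* Fˣ) (hφ : Function.Injective φ) :
    ((φ (-1) : Fˣ) : F) = -1 := by
  have h1 : (φ (-1) : Fˣ) * φ (-1) = 1 := by
    rw [← map_mul]
    have : (-1 : (ZMod p)ˣ) * -1 = 1 := by rw [neg_mul_neg, one_mul]
    rw [this, map_one]
  have h2 : ((φ (-1) : Fˣ) : F) * φ (-1) = 1 := by
    rw [← Units.val_mul, h1, Units.val_one]
  rcases mul_self_eq_one_iff.1 h2 with h | h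
  · exfalso
    have h3 : φ (-1) = φ 1 := by
      rw [map_one]
      exact Units.ext h
    have h4 := hφ h3
    have h5 : ((-1 : (ZMod p)ˣ) : ZMod p) = 1 := by rw [h4, Units.val_one]
    rw [Units.val_neg, Units.val_one] at h5
    have h6 : (2 : ZMod p) = 0 := by linear_combination -h5
    have h7 : ((2 : ℕ) : ZMod p) = 0 := by exact_mod_cast h6
    rw [ZMod.natCast_eq_zero_iff] at h7
    have := Nat.le_of_dvd (by norm_num) h7
    have := hp.out.two_le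
    omega
  · exact h

theorem pow_neg (hp2 : p ≠ 2) (φ : (ZMod p)ˣ →* Fˣ) (hφ : Function.Injective φ) (k : ℕ)
    (a : (ZMod p)ˣ) : (((φ (-a)) ^ (2 * k + 1) : Fˣ) : F) = -(((φ a) ^ (2 * k + 1) : Fˣ) : F) := by
  have h1 : (-a : (ZMod p)ˣ) = -1 * a := by rw [neg_one_mul]
  rw [h1, map_mul, mul_pow, Units.val_mul, Units.val_pow_eq_pow_val (φ (-1)),
    chi_neg_one hp2 φ hφ, pow_succ, pow_mul, neg_one_sq, one_pow, one_mul, neg_one_mul]

theorem inv_neg (hp2 : p ≠ 2) (φ : (ZMod p)ˣ →* Fˣ) (hφ : Function.Injective φ) (k : ℕ)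
    (a : (ZMod p)ˣ) : ((((φ (-a)) ^ (2 * k + 1))⁻¹ : Fˣ) : F) =
      -((((φ a) ^ (2 * k + 1))⁻¹ : Fˣ) : F) := by
  rw [Units.val_inv_eq_inv_val, pow_neg hp2 φ hφ, Units.val_inv_eq_inv_val, _root_.inv_neg]

/-- the eigenvector equation -/
theorem eigen (hp2 : p ≠ 2) (h2 : (2 : F) ≠ 0) (φ : (ZMod p)ˣ →* Fˣ)
    (hφ : Function.Injective φ) (k : ℕ) (a : (ZMod p)ˣ) :
    ∑ b ∈ H p, ((sg p (a * b⁻¹) : ℤ) : F) * (((φ b) ^ (2 * k + 1) : Fˣ) : F) =
      (((φ a) ^ (2 * k + 1) : Fˣ) : F) * ∑ c ∈ H p, ((((φ c) ^ (2 * k + 1))⁻¹ : Fˣ) : F) := by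
  have e1 : ∑ b, ((sg p (a * b⁻¹) : ℤ) : F) * (((φ b) ^ (2 * k + 1) : Fˣ) : F) =
      ∑ b ∈ H p, ((sg p (a * b⁻¹) : ℤ) : F) * (((φ b) ^ (2 * k + 1) : Fˣ) : F) +
      ∑ b ∈ H p, ((sg p (a * b⁻¹) : ℤ) : F) * (((φ b) ^ (2 * k + 1) : Fˣ) : F) := by
    refine sum_even p hp2 _ fun b => ?_
    have h3 : a * (-b)⁻¹ = -(a * b⁻¹) := by rw [_root_.inv_neg, mul_neg]
    rw [h3, sg_neg p hp2, pow_neg hp2 φ hφ]
    push_cast
    ring
  have e2 : ∑ c, ((sg p c : ℤ) : F) * ((((φ c) ^ (2 * k + 1))⁻¹ : Fˣ) : F) =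
      ∑ c ∈ H p, ((((φ c) ^ (2 * k + 1))⁻¹ : Fˣ) : F) +
      ∑ c ∈ H p, ((((φ c) ^ (2 * k + 1))⁻¹ : Fˣ) : F) := by
    rw [sum_even p hp2 _ fun c => ?_]
    · have h3 : ∀ c ∈ H p, ((sg p c : ℤ) : F) * ((((φ c) ^ (2 * k + 1))⁻¹ : Fˣ) : F) =
          ((((φ c) ^ (2 * k + 1))⁻¹ : Fˣ) : F) := by
        intro c hc
        rw [sg, if_pos hc, Int.cast_one, one_mul]
      rw [sum_congr rfl h3]
    · rw [sg_neg p hp2, inv_neg hp2 φ hφ]
      push_cast
      ring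
  have e3 : ∑ b, ((sg p (a * b⁻¹) : ℤ) : F) * (((φ b) ^ (2 * k + 1) : Fˣ) : F) =
      (((φ a) ^ (2 * k + 1) : Fˣ) : F) *
        ∑ c, ((sg p c : ℤ) : F) * ((((φ c) ^ (2 * k + 1))⁻¹ : Fˣ) : F) := by
    rw [mul_sum, ← Equiv.sum_comp ((Equiv.inv _).trans (Equiv.mulLeft a))
      (fun c => (((φ a) ^ (2 * k + 1) : Fˣ) : F) *
        (((sg p c : ℤ) : F) * ((((φ c) ^ (2 * k + 1))⁻¹ : Fˣ) : F)))]
    refine sum_congr rfl fun b _ => ?_
    have h4 : ((Equiv.inv _).trans (Equiv.mulLeft a)) b = a * b⁻¹ := rfl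
    rw [h4]
    have h5 : (((φ a) ^ (2 * k + 1) : Fˣ) : F) * ((((φ (a * b⁻¹)) ^ (2 * k + 1))⁻¹ : Fˣ) : F) =
        (((φ b) ^ (2 * k + 1) : Fˣ) : F) := by
      rw [← Units.val_mul]
      congr 1
      rw [map_mul, map_inv, mul_pow, mul_inv, inv_pow, inv_inv, mul_inv_cancel_left]
    calc ((sg p (a * b⁻¹) : ℤ) : F) * (((φ b) ^ (2 * k + 1) : Fˣ) : F) =
        ((sg p (a * b⁻¹) : ℤ) : F) * ((((φ a) ^ (2 * k + 1) : Fˣ) : F) *
          ((((φ (a * b⁻¹)) ^ (2 * k + 1))⁻¹ : Fˣ) : F)) := by rw [h5]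
      _ = _ := by ring
  have e4 := e1.symm.trans (e3.trans (by rw [e2]))
  have e5 : (2 : F) * ∑ b ∈ H p, ((sg p (a * b⁻¹) : ℤ) : F) * (((φ b) ^ (2 * k + 1) : Fˣ) : F) =
      2 * ((((φ a) ^ (2 * k + 1) : Fˣ) : F) *
        ∑ c ∈ H p, ((((φ c) ^ (2 * k + 1))⁻¹ : Fˣ) : F)) := by
    linear_combination e4
  exact mul_left_cancel₀ h2 e5

/-- the odd powers are independent on the half system -/
theorem indep (hp2 : p ≠ 2) (φ : (ZMod p)ˣ →* Fˣ) (hφ : Function.Injective φ)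
    (v : Fin ((p - 1) / 2) → F)
    (hv : ∀ a ∈ H p, ∑ k : Fin ((p - 1) / 2), (((φ a) ^ (2 * (k : ℕ) + 1) : Fˣ) : F) * v k = 0) :
    v = 0 := by
  have hall : ∀ a, ∑ k : Fin ((p - 1) / 2), (((φ a) ^ (2 * (k : ℕ) + 1) : Fˣ) : F) * v k = 0 := by
    intro a
    by_cases h : a ∈ H p
    · exact hv a h
    · have h1 := hv (-a) ((neg_mem_H p hp2 a).2 h)
      have h2 : ∀ k : Fin ((p - 1) / 2), (((φ (-a)) ^ (2 * (k : ℕ) + 1) : Fˣ) : F) * v k =
          -((((φ a) ^ (2 * (k : ℕ) + 1) : Fˣ) : F) * v k) := by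
        intro k
        rw [pow_neg hp2 φ hφ]
        ring
      rw [sum_congr rfl fun k _ => h2 k, sum_neg_distrib, neg_eq_zero] at h1
      exact h1
  -- the characters are different
  let χ : Fin ((p - 1) / 2) → ((ZMod p)ˣ →* F) := fun k =>
    (Units.coeHom F).comp (φ ^ (2 * (k : ℕ) + 1))
  have hχ : ∀ k a, χ k a = (((φ a) ^ (2 * (k : ℕ) + 1) : Fˣ) : F) := fun k a => rfl
  obtain ⟨g, hg⟩ := IsCyclic.exists_generator (α := (ZMod p)ˣ)
  have hord : orderOf g = p - 1 := by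
    rw [orderOf_eq_card_of_forall_mem_zpowers hg, Nat.card_eq_fintype_card,
      ZMod.card_units_eq_totient, Nat.totient_prime hp.out]
  have hordφ : orderOf (φ g) = p - 1 := by
    rw [orderOf_injective φ hφ, hord]
  have hinj : Function.Injective χ := by
    intro k k' h
    have h1 : χ k g = χ k' g := by rw [h]
    rw [hχ, hχ] at h1
    have h3 : (φ g) ^ (2 * (k : ℕ) + 1) = (φ g) ^ (2 * (k' : ℕ) + 1) := Units.ext h1
    have h4 := k.2
    have h5 := k'.2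
    have h6 := pow_injOn_Iio_orderOf (x := φ g) (by rw [Set.mem_Iio, hordφ]; omega)
      (by rw [Set.mem_Iio, hordφ]; omega) h3
    ext
    omega
  have hli := (linearIndependent_monoidHom (ZMod p)ˣ F).comp χ hinj
  rw [Fintype.linearIndependent_iff] at hli
  funext k
  refine hli v ?_ k
  funext a
  have h1 := hall a
  rw [Pi.zero_apply, ← h1, Finset.sum_apply]
  refine sum_congr rfl fun k _ => ?_
  rw [Pi.smul_apply, smul_eq_mul, mul_comm]
  rfl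

theorem det_M (hp2 : p ≠ 2) (h2 : (2 : F) ≠ 0) (φ : (ZMod p)ˣ →* Fˣ)
    (hφ : Function.Injective φ) :
    (((M p).det : ℤ) : F) = ∏ k ∈ range ((p - 1) / 2),
      ∑ c ∈ H p, ((((φ c) ^ (2 * k + 1))⁻¹ : Fˣ) : F) := by
  classical
  have hcard : Fintype.card (H p) = (p - 1) / 2 := by
    rw [Fintype.card_coe, card_H p hp2]
  let e : H p ≃ Fin ((p - 1) / 2) := Fintype.equivFinOfCardEq hcard
  let D : Fin ((p - 1) / 2) → F := fun k =>
    ∑ c ∈ H p, ((((φ c) ^ (2 * (k : ℕ) + 1))⁻¹ : Fˣ) : F)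
  let W : Matrix (H p) (H p) F := Matrix.of fun a h =>
    (((φ (a : (ZMod p)ˣ)) ^ (2 * ((e h : Fin ((p - 1) / 2)) : ℕ) + 1) : Fˣ) : F)
  have hW : W.det ≠ 0 := by
    intro h0
    obtain ⟨v, hv0, hv⟩ := Matrix.exists_mulVec_eq_zero_iff.2 h0
    apply hv0
    have h1 := indep hp2 φ hφ (fun k => v (e.symm k)) (by
      intro a ha
      have h3 := congrFun hv ⟨a, ha⟩
      rw [Matrix.mulVec, dotProduct, Pi.zero_apply] at h3
      rw [← h3, ← Equiv.sum_comp e]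
      refine sum_congr rfl fun h _ => ?_
      rw [Equiv.symm_apply_apply]
      rfl)
    funext h
    have h3 := congrFun h1 (e h)
    simpa using h3
  have hMW : (M p).map (Int.cast : ℤ → F) * W = W * Matrix.diagonal (fun h => D (e h)) := by
    ext a h
    rw [Matrix.mul_apply, Matrix.mul_diagonal]
    have h1 := eigen hp2 h2 φ hφ (e h) (a : (ZMod p)ˣ)
    rw [← Finset.sum_coe_sort (H p)] at h1
    exact h1
  have h3 := congrArg Matrix.det hMW
  rw [Matrix.det_mul, Matrix.det_mul, Matrix.det_diagonal, mul_comm (W.det)] at h3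
  have h4 := mul_right_cancel₀ hW h3
  have h5 : ((M p).map (Int.cast : ℤ → F)).det = (((M p).det : ℤ) : F) := by
    have := (Int.castRingHom F).map_det (M p)
    rw [eq_intCast] at this
    rw [this]
    rfl
  rw [← h5, h4, Equiv.prod_comp e D, ← Fin.prod_univ_eq_prod_range
    (fun k => ∑ c ∈ H p, ((((φ c) ^ (2 * k + 1))⁻¹ : Fˣ) : F))]

end

end Pool.Agent.Helper7.HU
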