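import Pool.Agent.Helper7.HU.Det
import Pool.Agent.Helper52.Fermat.Saw3

/-!
# HU-NZ: the half sums of odd characters do not vanish
-/

set_option autoImplicit false

namespace Pool.Agent.Helper7.HU

open Finset

section

variable {p : ℕ} [hp : Fact p.Prime]

/-- sums over the units as sums over the half system -/
theorem sum_units {R : Type*} [AddCommMonoid R] (hp2 : p ≠ 2) (f : (ZMod p)ˣ → R) :
    ∑ a, f a = ∑ a ∈ H p, (f a + f (-a)) := by
  classical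
  have h1 : ∑ a, f a = ∑ a ∈ H p, f a + ∑ a ∈ (H p)ᶜ, f a := (sum_add_sum_compl _ _).symm
  rw [h1, sum_add_distrib]
  congr 1
  symm
  refine sum_bij (fun a _ => -a) ?_ ?_ ?_ ?_
  · intro a ha
    rw [mem_compl, neg_mem_H p hp2]
    exact not_not.2 ha
  · intro a _ b _ h
    exact neg_injective h
  · intro b hb
    rw [mem_compl] at hb
    exact ⟨-b, (neg_mem_H p hp2 b).2 hb, neg_neg b⟩
  · intro a _
    rfl

/-- the unit two -/
def two (hp2 : p ≠ 2) : (ZMod p)ˣ := ZMod.unitOfCoprime 2 (by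
  rw [Nat.coprime_comm]
  exact (Nat.coprime_primes hp.out Nat.prime_two).2 hp2)

theorem coe_two (hp2 : p ≠ 2) : ((two hp2 : (ZMod p)ˣ) : ZMod p) = 2 := by
  rw [two, ZMod.coe_unitOfCoprime]
  rfl

theorem val_two_mul (hp2 : p ≠ 2) {a : (ZMod p)ˣ} (ha : a ∈ H p) :
    ((two hp2 * a : (ZMod p)ˣ) : ZMod p).val = 2 * (a : ZMod p).val := by
  rw [mem_H] at ha
  have h1 : ((two hp2 * a : (ZMod p)ˣ) : ZMod p) = ((2 * (a : ZMod p).val : ℕ) : ZMod p) := by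
    rw [Units.val_mul, coe_two]
    push_cast
    rw [ZMod.natCast_zmod_val]
  rw [h1, ZMod.val_natCast_of_lt ha]

theorem val_two_neg (hp2 : p ≠ 2) {a : (ZMod p)ˣ} (ha : a ∈ H p) :
    ((two hp2 * -a : (ZMod p)ˣ) : ZMod p).val = p - 2 * (a : ZMod p).val := by
  rw [mul_neg, val_neg_unit, val_two_mul hp2 ha]

/-- `∑ φ(a) a` is not zero -/
theorem T1_ne (hp2 : p ≠ 2) (φ : (ZMod p)ˣ →* ℂˣ) (hφ : ((φ (-1) : ℂˣ) : ℂ) = -1) :
    ∑ a, ((φ a : ℂˣ) : ℂ) * (((a : ZMod p).val : ℕ) : ℂ) ≠ 0 := by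
  let χ : DirichletCharacter ℂ p := MulChar.ofUnitHom φ
  have hodd : χ.Odd := by
    have h1 : (-1 : ZMod p) = ((-1 : (ZMod p)ˣ) : ZMod p) := by simp
    change χ (-1) = -1
    rw [h1]
    exact (MulChar.ofUnitHom_coe φ (-1)).trans hφ
  have h1 := Pool.Agent.Helper52.Fermat.B1_ne (m := p) hp.out.isPrimePow hodd
  have h2 : χ ≠ 1 := Pool.Agent.Helper52.Fermat.odd_ne_one hodd
  rw [Pool.Agent.Helper52.Fermat.B1_range χ h2] at h1
  intro h0
  apply h1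
  have h3 : ∑ k ∈ range p, χ (k : ZMod p) * (k : ℂ) =
      ∑ r : ZMod p, χ r * ((r.val : ℕ) : ℂ) := by
    rw [Pool.Agent.Helper52.Fermat.sum_zmod' (D := p) (fun r => χ r * ((r.val : ℕ) : ℂ))]
    refine sum_congr rfl fun k hk => ?_
    rw [ZMod.val_natCast_of_lt (mem_range.1 hk)]
  have h4 : ∑ a, ((φ a : ℂˣ) : ℂ) * (((a : ZMod p).val : ℕ) : ℂ) =
      ∑ r : ZMod p, χ r * ((r.val : ℕ) : ℂ) := by
    refine Fintype.sum_of_injective (fun r : (ZMod p)ˣ => (r : ZMod p)) Units.val_injective _ _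
      ?_ ?_
    · intro r hr
      have hu : ¬ IsUnit r := fun ⟨u, hu⟩ => hr ⟨u, hu⟩
      rw [MulChar.map_nonunit _ hu, zero_mul]
    · intro r
      rw [MulChar.ofUnitHom_coe]
  rw [h3, ← h4, h0, mul_zero]

/-- the half sums do not vanish -/
theorem S_ne (hp2 : p ≠ 2) (φ : (ZMod p)ˣ →* ℂˣ) (hφ : ((φ (-1) : ℂˣ) : ℂ) = -1) :
    ∑ a ∈ H p, ((φ a : ℂˣ) : ℂ) ≠ 0 := by
  intro hS
  have hneg : ∀ a, ((φ (-a) : ℂˣ) : ℂ) = -((φ a : ℂˣ) : ℂ) := by
    intro a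
    have h1 : (-a : (ZMod p)ˣ) = -1 * a := by rw [neg_one_mul]
    rw [h1, map_mul, Units.val_mul, hφ, neg_one_mul]
  have hle : ∀ a : (ZMod p)ˣ, (a : ZMod p).val ≤ p := fun a => (ZMod.val_lt _).le
  set A : ℂ := ∑ a ∈ H p, ((φ a : ℂˣ) : ℂ) * (((a : ZMod p).val : ℕ) : ℂ) with hA
  have e1 : ∑ a, ((φ a : ℂˣ) : ℂ) * (((a : ZMod p).val : ℕ) : ℂ) =
      2 * A - p * ∑ a ∈ H p, ((φ a : ℂˣ) : ℂ) := by
    rw [sum_units hp2, hA, mul_sum, mul_sum, ← sum_sub_distrib]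
    refine sum_congr rfl fun a _ => ?_
    rw [hneg, val_neg_unit, Nat.cast_sub (hle a)]
    ring
  have e2 : ∑ a, ((φ a : ℂˣ) : ℂ) * (((a : ZMod p).val : ℕ) : ℂ) =
      ((φ (two hp2) : ℂˣ) : ℂ) * (4 * A - p * ∑ a ∈ H p, ((φ a : ℂˣ) : ℂ)) := by
    rw [← Equiv.sum_comp (Equiv.mulLeft (two hp2)), sum_units hp2, hA, mul_sum, mul_sum,
      ← sum_sub_distrib, mul_sum]
    refine sum_congr rfl fun a ha => ?_
    rw [Equiv.coe_mulLeft, val_two_mul hp2 ha, val_two_neg hp2 ha, map_mul, map_mul,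
      Units.val_mul, Units.val_mul, hneg]
    rw [mem_H] at ha
    rw [Nat.cast_sub ha.le]
    push_cast
    ring
  rw [hS, mul_zero, sub_zero] at e1 e2
  have e3 : A * (2 - 4 * ((φ (two hp2) : ℂˣ) : ℂ)) = 0 := by
    linear_combination e2 - e1
  have hnorm : ‖((φ (two hp2) : ℂˣ) : ℂ)‖ = 1 := by
    have h1 : (φ (two hp2)) ^ Fintype.card (ZMod p)ˣ = 1 := by
      rw [← map_pow, pow_card_eq_one, map_one]
    have h2 : ‖((φ (two hp2) : ℂˣ) : ℂ)‖ ^ Fintype.card (ZMod p)ˣ = 1 := by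
      rw [← norm_pow, ← Units.val_pow_eq_pow_val, h1, Units.val_one, norm_one]
    exact (pow_eq_one_iff_of_nonneg (norm_nonneg _) Fintype.card_ne_zero).1 h2
  rcases mul_eq_zero.1 e3 with h | h
  · apply T1_ne hp2 φ hφ
    rw [e1, h, mul_zero]
  · have h1 : (4 : ℂ) * ((φ (two hp2) : ℂˣ) : ℂ) = 2 := by linear_combination -h
    have h2 := congrArg norm h1
    rw [norm_mul, hnorm, mul_one] at h2
    norm_num at h2

/-- a faithful complex character -/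
theorem exists_faithful : ∃ φ : (ZMod p)ˣ →* ℂˣ, Function.Injective φ := by
  have h1 : 0 < p - 1 := by
    have := hp.out.two_le
    omega
  have : NeZero (p - 1) := ⟨h1.ne'⟩
  have hcard : Nat.card (ZMod p)ˣ = Nat.card (rootsOfUnity (p - 1) ℂ) := by
    rw [Nat.card_eq_fintype_card, ZMod.card_units_eq_totient, Nat.totient_prime hp.out,
      Complex.card_rootsOfUnity]
  let e : (ZMod p)ˣ ≃* rootsOfUnity (p - 1) ℂ := mulEquivOfCyclicCardEq hcard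
  exact ⟨(rootsOfUnity (p - 1) ℂ).subtype.comp e.toMonoidHom,
    Subtype.val_injective.comp e.injective⟩

/-- the determinant is not zero -/
theorem det_ne (hp2 : p ≠ 2) : (M p).det ≠ 0 := by
  obtain ⟨φ, hφ⟩ := exists_faithful (p := p)
  have h1 := det_M hp2 (two_ne_zero' ℂ) φ hφ
  intro h0
  rw [h0, Int.cast_zero, eq_comm, prod_eq_zero_iff] at h1
  obtain ⟨k, _, hk⟩ := h1
  refine S_ne hp2 ((φ ^ (2 * k + 1))⁻¹) ?_ hk
  have h2 := inv_neg hp2 φ hφ k 1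
  rw [map_one, one_pow, inv_one, Units.val_one] at h2
  exact h2

end

end Pool.Agent.Helper7.HU
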